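import Mathlib
import Pool.Agent.Run7.h805.Cub.Main
import Pool.Agent.Run7.h805.Cub.SchC

/-!
# Totally `S`-adic points of degree at most three on families of cubic hypersurfaces (helper805)

`L` is the field of the totally `S`-adic solvable algebraic numbers, described exactly as in the
frozen statement `S16509` of the problem (`S` is the set of the primes `p ∈ S`, together with the
infinite place if `r = true`).
-/

set_option autoImplicit false

namespace Pool.Agent.Results.MP_328ab2_nt.CubicFibrations

open AlgebraicGeometry CategoryTheory CategoryTheory.Limits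

/-- Let `f` be an irreducible polynomial in `ℚ[t₁, …, tₘ][x₁, …, xₙ]` of total degree three in
`x₁, …, xₙ` which stays irreducible over every field containing `ℚ(t₁, …, tₘ)` (for `m = 0` this is
an absolutely irreducible cubic polynomial over `ℚ`). Let `Y` be a smooth integral scheme over `ℚ`
with a `ℚ_p`-point for every `p ∈ S` (and a real point if `r = true`), whose function field is that
of the hypersurface `f = 0`. Then every integral scheme `X` locally of finite type over `ℚ` whose
function field embeds in that of `Y` has a point over a subfield `F` of `L` of degree at most three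
over `ℚ`; in particular it has a point over `L`. -/
theorem result :
    ∀ (S : Finset ℕ) (r : Bool) (L : IntermediateField ℚ (AlgebraicClosure ℚ)),
      (∀ x : AlgebraicClosure ℚ, x ∈ L ↔
        ((∀ (p : ℕ) [Fact p.Prime], p ∈ S →
            ((minpoly ℚ x).map (algebraMap ℚ ℚ_[p])).roots.card = (minpoly ℚ x).natDegree) ∧
         (r = true →
            ((minpoly ℚ x).map (algebraMap ℚ ℝ)).roots.card = (minpoly ℚ x).natDegree) ∧
         Group.IsSolvable (minpoly ℚ x).Gal)) →
      ∀ (Y : Scheme.{0}) (h : Y ⟶ Spec (CommRingCat.of ℚ)) [IsIntegral Y],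
        AlgebraicGeometry.Smooth h →
        (∀ (p : ℕ) [Fact p.Prime], p ∈ S →
          ∃ g : Spec (CommRingCat.of ℚ_[p]) ⟶ Y,
            g ≫ h = Spec.map (CommRingCat.ofHom (algebraMap ℚ ℚ_[p]))) →
        (r = true →
          ∃ g : Spec (CommRingCat.of ℝ) ⟶ Y,
            g ≫ h = Spec.map (CommRingCat.ofHom (algebraMap ℚ ℝ))) →
      ∀ (m n : ℕ) (f : MvPolynomial (Fin n) (MvPolynomial (Fin m) ℚ)),
        Irreducible f → f.totalDegree = 3 →
        (∀ (F : Type) [Field F] (φ : MvPolynomial (Fin m) ℚ →+* F), Function.Injective φ →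
          Irreducible (f.map φ)) →
        Nonempty (Y.functionField ≃+*
          FractionRing (MvPolynomial (Fin n) (MvPolynomial (Fin m) ℚ) ⧸ Ideal.span {f})) →
      ∀ (X : Scheme.{0}) (c : X ⟶ Spec (CommRingCat.of ℚ)) [IsIntegral X],
        AlgebraicGeometry.LocallyOfFiniteType c →
        Nonempty (X.functionField →+* Y.functionField) →
        (∃ F : IntermediateField ℚ (AlgebraicClosure ℚ), F ≤ L ∧ Module.finrank ℚ F ≤ 3 ∧
          ∃ g : Spec (CommRingCat.of F) ⟶ X,
            g ≫ c = Spec.map (CommRingCat.ofHom (algebraMap ℚ F))) ∧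
        ∃ g : Spec (CommRingCat.of L) ⟶ X,
          g ≫ c = Spec.map (CommRingCat.ofHom (algebraMap ℚ L)) := by
  classical
  intro S r L hL Y h _ hsm hp hr m n f hf hdeg habs ⟨e⟩ X c _ hft ⟨j⟩
  have hprime : Prime f := hf.prime
  let A := MvPolynomial (Fin n) (MvPolynomial (Fin m) ℚ) ⧸ Ideal.span {f}
  have hIp : (Ideal.span {f}).IsPrime := (Ideal.span_singleton_prime hf.ne_zero).2 hprime
  have hdom : IsDomain A := Ideal.Quotient.isDomain _
  let E := FractionRing A
  let T : Finset Nat.Primes := (S.filter Nat.Prime).subtype Nat.Prime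
  have hT : ∀ p : Nat.Primes, p ∈ T ↔ (p : ℕ) ∈ S := by
    intro p
    refine Finset.mem_subtype.trans ?_
    rw [Finset.mem_filter]
    exact ⟨fun h => h.1, fun h => ⟨h, p.2⟩⟩
  have halg : Algebra.IsAlgebraic ℚ (AlgebraicClosure ℚ) := by
    have h1 : (AlgebraicClosure.instAlgebra ℚ : Algebra ℚ (AlgebraicClosure ℚ)) =
      DivisionRing.toRatAlgebra := Subsingleton.elim _ _
    rw [← h1]
    exact AlgebraicClosure.isAlgebraic ℚ
  obtain ⟨s, hs⟩ := Run7.h805.exists_finset_point c ((e.toRingHom.comp j : X.functionField →+* E))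
  obtain ⟨F, hFL, hF3, hF⟩ := Run7.h805.cubic_core (E := E) (A := A) (Qb := AlgebraicClosure ℚ)
    f hf hdeg habs (Ideal.Quotient.mk (Ideal.span {f})) Ideal.Quotient.mk_surjective
    (fun h => by rw [Ideal.Quotient.eq_zero_iff_mem, Ideal.mem_span_singleton]) T r L (by
      intro x h1 h2 h3
      rw [hL]
      refine ⟨fun p hpf hpS => ?_, fun hrr => ?_, h3⟩
      · have h4 := h1 ⟨p, hpf.out⟩ ((hT _).2 hpS)
        have h5 := (Polynomial.splits_iff_card_roots.1 h4)
        rwa [Polynomial.natDegree_map] at h5
      · have h5 := (Polynomial.splits_iff_card_roots.1 (h2 hrr))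
        rwa [Polynomial.natDegree_map] at h5)
    (by
      intro p hpT
      obtain ⟨g, -⟩ := hp (p : ℕ) ((hT p).1 hpT)
      exact Run7.h805.locPt_of_point h e g)
    (by
      intro hrr
      obtain ⟨g, -⟩ := hr hrr
      exact Run7.h805.locPt_of_point h e g) s
  refine ⟨⟨F, hFL, hF3, hs F hF⟩, ?_⟩
  obtain ⟨φ⟩ := hF
  exact hs L ⟨(IntermediateField.inclusion hFL).comp φ⟩

end Pool.Agent.Results.MP_328ab2_nt.CubicFibrations
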