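import Mathlib
import Pool.Agent.Run7.h805.Core
import Pool.Agent.Run7.h805.Sch

/-!
# Totally `S`-adic solvable points on solvable Galois covers of rational varieties (helper805)

`L` is the field of the totally `S`-adic solvable algebraic numbers, described exactly as in the
frozen statement `S16509` of the problem (`S` is the set of the primes `p ∈ S`, together with the
infinite place if `r = true`).
-/

set_option autoImplicit false

namespace Pool.Agent.Results.MP_328ab2_nt.SolvableGaloisCovers

open AlgebraicGeometry CategoryTheory CategoryTheory.Limits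

/-- Let `Y` be a smooth integral scheme over `ℚ` with a `ℚ_p`-point for every `p ∈ S` (and a real
point if `r = true`), whose function field is a finite Galois extension `E` with solvable group of
a purely transcendental extension `ℚ(t₁, …, tₙ)` of `ℚ`. Then every integral scheme `X` locally of
finite type over `ℚ` whose function field embeds in that of `Y` has a point over `L`. -/
theorem result :
    ∀ (S : Finset ℕ) (r : Bool) (L : IntermediateField ℚ (AlgebraicClosure ℚ)),
      (∀ x : AlgebraicClosure ℚ, x ∈ L ↔
        ((∀ (p : ℕ) [Fact p.Prime], p ∈ S →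
            ((minpoly ℚ x).map (algebraMap ℚ ℚ_[p])).roots.card = (minpoly ℚ x).natDegree) ∧
         (r = true →
            ((minpoly ℚ x).map (algebraMap ℚ ℝ)).roots.card = (minpoly ℚ x).natDegree) ∧
         Group.IsSolvable (minpoly ℚ x).Gal)) →
      ∀ (Y : Scheme.{0}) (h : Y ⟶ Spec (CommRingCat.of ℚ)) [IsIntegral Y],
        AlgebraicGeometry.Smooth h →
        (∀ (p : ℕ) [Fact p.Prime], p ∈ S →
          ∃ g : Spec (CommRingCat.of ℚ_[p]) ⟶ Y,
            g ≫ h = Spec.map (CommRingCat.ofHom (algebraMap ℚ ℚ_[p]))) →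
        (r = true →
          ∃ g : Spec (CommRingCat.of ℝ) ⟶ Y,
            g ≫ h = Spec.map (CommRingCat.ofHom (algebraMap ℚ ℝ))) →
      ∀ (n : ℕ) (E : Type) [Field E] [Algebra (FractionRing (MvPolynomial (Fin n) ℚ)) E]
        [FiniteDimensional (FractionRing (MvPolynomial (Fin n) ℚ)) E]
        [IsGalois (FractionRing (MvPolynomial (Fin n) ℚ)) E],
        Group.IsSolvable (E ≃ₐ[FractionRing (MvPolynomial (Fin n) ℚ)] E) →
        Nonempty (Y.functionField ≃+* E) →
      ∀ (X : Scheme.{0}) (f : X ⟶ Spec (CommRingCat.of ℚ)) [IsIntegral X],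
        AlgebraicGeometry.LocallyOfFiniteType f →
        Nonempty (X.functionField →+* Y.functionField) →
        ∃ g : Spec (CommRingCat.of L) ⟶ X,
          g ≫ f = Spec.map (CommRingCat.ofHom (algebraMap ℚ L)) := by
  classical
  intro S r L hL Y h _ hsm hp hr n E _ _ _ _ hsol ⟨e⟩ X f _ hft ⟨j⟩
  have hcz : CharZero E := charZero_of_injective_algebraMap
    (algebraMap (FractionRing (MvPolynomial (Fin n) ℚ)) E).injective
  let T : Finset Nat.Primes := (S.filter Nat.Prime).subtype Nat.Prime
  have hT : ∀ p : Nat.Primes, p ∈ T ↔ (p : ℕ) ∈ S := by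
    intro p
    refine Finset.mem_subtype.trans ?_
    rw [Finset.mem_filter]
    exact ⟨fun h => h.1, fun h => ⟨h, p.2⟩⟩
  have halg : Algebra.IsAlgebraic ℚ (AlgebraicClosure ℚ) := by
    have h1 : (AlgebraicClosure.instAlgebra ℚ : Algebra ℚ (AlgebraicClosure ℚ)) =
      DivisionRing.toRatAlgebra := Subsingleton.elim _ _
    rw [← h1]
    exact AlgebraicClosure.isAlgebraic ℚ
  have hE := Run7.h805.core (n := n) (E := E) (Qb := AlgebraicClosure ℚ) T r L (by
      intro x h1 h2 h3
      rw [hL]
      refine ⟨fun p hpf hpS => ?_, fun hrr => ?_, h3⟩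
      · have h4 := h1 ⟨p, hpf.out⟩ ((hT _).2 hpS)
        have h5 := (Polynomial.splits_iff_card_roots.1 h4)
        rwa [Polynomial.natDegree_map] at h5
      · have h5 := (Polynomial.splits_iff_card_roots.1 (h2 hrr))
        rwa [Polynomial.natDegree_map] at h5)
    (by
      intro p hpT
      obtain ⟨g, -⟩ := hp (p : ℕ) ((hT p).1 hpT)
      exact Run7.h805.locPt_of_point h e g)
    (by
      intro hrr
      obtain ⟨g, -⟩ := hr hrr
      exact Run7.h805.locPt_of_point h e g)
  exact Run7.h805.point_of_locPt f (e.toRingHom.comp j) hE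

end Pool.Agent.Results.MP_328ab2_nt.SolvableGaloisCovers
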